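import Mathlib

set_option autoImplicit false

namespace Pool.Agent.Results.MP_383f58_co.Chessboard

open Finset

/-- The number of `i`-dimensional faces of a simplicial complex, i.e. of faces with
`i + 1` vertices. -/
noncomputable def faceNum {V : Type} (K : AbstractSimplicialComplex V) (i : ℕ) : ℕ :=
  Set.ncard {s : Finset V | s ∈ K.faces ∧ s.card = i + 1}

/-- A facet is a face that is maximal under inclusion. -/
def IsFacet {V : Type} (K : AbstractSimplicialComplex V) (s : Finset V) : Prop :=
  Maximal (fun t => t ∈ K.faces) s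

/-- A complex is flag if every nonempty finite set of vertices that are pairwise joined by
edges is a face. -/
def IsFlag {V : Type} (K : AbstractSimplicialComplex V) : Prop :=
  ∀ s : Finset V, s.Nonempty → (∀ e : Finset V, e ⊆ s → e.card = 2 → e ∈ K.faces) → s ∈ K.faces

/-- A `d`-dimensional pseudomanifold (`1 ≤ d`): the complex has a facet, every facet has
dimension `d` (has `d + 1` vertices), and every `(d-1)`-dimensional face (a face with `d`
vertices) lies in exactly two facets. -/
def IsPseudomanifold {V : Type} (K : AbstractSimplicialComplex V) (d : ℕ) : Prop :=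
  (∃ s, IsFacet K s) ∧ (∀ s, IsFacet K s → s.card = d + 1) ∧
    ∀ t ∈ K.faces, t.card = d → Set.ncard {s : Finset V | IsFacet K s ∧ t ⊆ s} = 2

/-- The triangulated circle with `c` vertices (`3 ≤ c`): its faces are the vertices and the
edges of the cycle graph on `Fin c`. -/
def cycleComplex (c : ℕ) : AbstractSimplicialComplex (Fin c) where
  faces := {s | s.Nonempty ∧ s.card ≤ 2 ∧
    ∀ u ∈ s, ∀ v ∈ s, u ≠ v → (SimpleGraph.cycleGraph c).Adj u v}
  isRelLowerSet_faces := by
    intro s hs
    refine ⟨hs.1, fun t hts ht => ⟨ht, (card_le_card hts).trans hs.2.1, ?_⟩⟩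
    intro u hu v hv huv
    exact hs.2.2 u (hts hu) v (hts hv) huv
  singleton_mem := by
    intro v
    refine ⟨singleton_nonempty v, by simp, ?_⟩
    intro u hu w hw huw
    rw [mem_singleton] at hu hw
    exact absurd (hu.trans hw.symm) huw

/-- The join of a family of complexes: a nonempty set of vertices is a face iff for every `j`
its part in the `j`-th factor is empty or a face (equivalently, every nonempty set `t` of
vertices of the `j`-th factor that is contained in it is a face). -/
def join {ι : Type} {V : ι → Type} (K : ∀ j, AbstractSimplicialComplex (V j)) :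
    AbstractSimplicialComplex (Σ j, V j) where
  faces := {s | s.Nonempty ∧ ∀ (j : ι) (t : Finset (V j)), t.Nonempty →
    (∀ v ∈ t, (⟨j, v⟩ : Σ j, V j) ∈ s) → t ∈ (K j).faces}
  isRelLowerSet_faces := by
    intro s hs
    refine ⟨hs.1, fun s' hs' hne => ⟨hne, fun j t ht h => hs.2 j t ht fun v hv => hs' (h v hv)⟩⟩
  singleton_mem := by
    rintro ⟨i, w⟩
    refine ⟨singleton_nonempty _, ?_⟩
    intro j t ht h
    obtain ⟨v, hv⟩ := ht
    have h1 := h v hv
    rw [mem_singleton] at h1
    have hj : j = i := congrArg Sigma.fst h1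
    subst hj
    have : t = {v} := by
      ext x
      rw [mem_singleton]
      constructor
      · intro hx
        have h2 := h x hx
        rw [mem_singleton] at h2
        have h3 := h2.trans h1.symm
        simpa using h3
      · rintro rfl; exact hv
    rw [this]
    exact (K j).singleton_mem v

/-- `J m n`: the join of `m` cycles, the `j`-th of which has `⌊n/m⌋ + 1` vertices if
`j < n mod m` and `⌊n/m⌋` vertices otherwise, so that there are `n` vertices in total. -/
def J (m n : ℕ) : AbstractSimplicialComplex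
    (Σ j : Fin m, Fin (n / m + if (j : ℕ) < n % m then 1 else 0)) :=
  join fun j : Fin m => cycleComplex (n / m + if (j : ℕ) < n % m then 1 else 0)

/-! ### The counterexample -/

/-- The 2-blow-up of the chessboard complex (several coordinates allowed). -/
def rook (ι : Type) (r : ℕ) : AbstractSimplicialComplex ((ι → Fin r) × Bool) where
  faces := {s | s.Nonempty ∧ ∀ l : ι, Set.InjOn (fun v : (ι → Fin r) × Bool => v.1 l) s}
  isRelLowerSet_faces := by
    intro s hs
    exact ⟨hs.1, fun t hts ht => ⟨ht, fun l => (hs.2 l).mono (by exact_mod_cast hts)⟩⟩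
  singleton_mem := by
    intro v
    refine ⟨singleton_nonempty v, fun l => by simp⟩

section rook

variable {ι : Type} {r : ℕ}

theorem mem_rook (s : Finset ((ι → Fin r) × Bool)) :
    s ∈ (rook ι r).faces ↔ s.Nonempty ∧
      ∀ l : ι, Set.InjOn (fun v : (ι → Fin r) × Bool => v.1 l) s := Iff.rfl

theorem rook_flag : IsFlag (rook ι r) := by
  classical
  intro s hs h
  refine ⟨hs, fun l u hu v hv huv => ?_⟩
  by_contra hne
  have h1 := h {u, v} (by
    intro x hx
    rw [mem_insert, mem_singleton] at hx
    rcases hx with rfl | rfl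
    · exact hu
    · exact hv) (card_pair hne)
  exact hne (h1.2 l (by simp) (by simp) huv)

/-- the number of unused values -/
def miss [DecidableEq ι] (s : Finset ((ι → Fin r) × Bool)) (l : ι) : Finset (Fin r) :=
  univ \ s.image (fun v => v.1 l)

variable [Fintype ι] [DecidableEq ι]

/-- extension vertices of a face -/
def extVerts (s : Finset ((ι → Fin r) × Bool)) : Finset ((ι → Fin r) × Bool) :=
  (Fintype.piFinset (miss s)) ×ˢ univ

theorem card_miss {s : Finset ((ι → Fin r) × Bool)} (hs : s ∈ (rook ι r).faces) (l : ι) :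
    (miss s l).card = r - s.card := by
  unfold miss
  rw [card_sdiff_of_subset (subset_univ _), card_image_of_injOn (hs.2 l)]
  simp

theorem card_ext {s : Finset ((ι → Fin r) × Bool)} (hs : s ∈ (rook ι r).faces) :
    (extVerts s).card = 2 * (r - s.card) ^ Fintype.card ι := by
  unfold extVerts
  rw [card_product, Fintype.card_piFinset, prod_congr rfl (fun l _ => card_miss hs l)]
  simp [mul_comm]

theorem mem_ext {s : Finset ((ι → Fin r) × Bool)} {v : (ι → Fin r) × Bool} :
    v ∈ extVerts s ↔ ∀ l, ∀ u ∈ s, u.1 l ≠ v.1 l := by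
  unfold extVerts miss
  simp only [mem_product, Fintype.mem_piFinset, mem_sdiff, mem_univ, true_and, mem_image,
    not_exists, not_and, and_true, ne_eq]

variable [Nonempty ι]

theorem notMem_of_mem_ext {s : Finset ((ι → Fin r) × Bool)} {v : (ι → Fin r) × Bool}
    (hv : v ∈ extVerts s) : v ∉ s := by
  intro h
  exact mem_ext.1 hv (Classical.arbitrary ι) v h rfl

theorem insert_mem_rook_iff {s : Finset ((ι → Fin r) × Bool)} (hs : s ∈ (rook ι r).faces)
    {v : (ι → Fin r) × Bool} (hv : v ∉ s) :
    insert v s ∈ (rook ι r).faces ↔ v ∈ extVerts s := by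
  rw [mem_ext]
  constructor
  · intro h l u hu he
    have : u = v := h.2 l (by simp [hu]) (by simp) he
    exact hv (this ▸ hu)
  · intro h
    refine ⟨insert_nonempty _ _, fun l => ?_⟩
    rw [coe_insert, Set.injOn_insert (by exact_mod_cast hv)]
    refine ⟨hs.2 l, ?_⟩
    rintro ⟨u, hu, he⟩
    exact h l u hu he

theorem card_le_of_mem_rook {s : Finset ((ι → Fin r) × Bool)} (hs : s ∈ (rook ι r).faces) :
    s.card ≤ r := by
  have l : ι := Classical.arbitrary ι
  have := card_image_of_injOn (hs.2 l)
  rw [← this]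
  exact (card_le_univ _).trans (by simp)

/-- The faces with one more vertex containing a given face. -/
theorem above_eq {s : Finset ((ι → Fin r) × Bool)} (hs : s ∈ (rook ι r).faces)
    (t : Finset ((ι → Fin r) × Bool)) :
    (t ∈ (rook ι r).faces ∧ t.card = s.card + 1 ∧ s ⊆ t) ↔
      t ∈ (extVerts s).image (fun v => insert v s) := by
  rw [mem_image]
  constructor
  · rintro ⟨ht, hc, hst⟩
    have h1 : (t \ s).card = 1 := by rw [card_sdiff_of_subset hst]; omega
    obtain ⟨v, hv⟩ := card_eq_one.1 h1
    have hvt : v ∈ t \ s := by rw [hv]; exact mem_singleton_self v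
    rw [mem_sdiff] at hvt
    have he : insert v s = t := by
      rw [← sdiff_union_of_subset hst, hv]; rfl
    refine ⟨v, ?_, he⟩
    rw [← insert_mem_rook_iff hs hvt.2, he]
    exact ht
  · rintro ⟨v, hv, rfl⟩
    have hvs := notMem_of_mem_ext hv
    exact ⟨(insert_mem_rook_iff hs hvs).2 hv, card_insert_of_notMem hvs, subset_insert _ _⟩

theorem card_above {s : Finset ((ι → Fin r) × Bool)} (hs : s ∈ (rook ι r).faces) :
    ((extVerts s).image (fun v => insert v s)).card = 2 * (r - s.card) ^ Fintype.card ι := by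
  rw [card_image_of_injOn, card_ext hs]
  intro v hv w hw h
  have hv' := notMem_of_mem_ext hv
  have hw' := notMem_of_mem_ext hw
  have h2 : v ∈ insert w s := by
    have : v ∈ insert v s := mem_insert_self _ _
    simp only at h
    rw [h] at this
    exact this
  rw [mem_insert] at h2
  rcases h2 with h2 | h2
  · exact h2
  · exact absurd h2 hv'

theorem isFacet_rook_iff {s : Finset ((ι → Fin r) × Bool)} :
    IsFacet (rook ι r) s ↔ s ∈ (rook ι r).faces ∧ s.card = r := by
  constructor
  · intro h
    refine ⟨h.1, ?_⟩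
    by_contra hne
    have hlt : s.card < r := lt_of_le_of_ne (card_le_of_mem_rook h.1) hne
    have h1 : 0 < (extVerts s).card := by
      rw [card_ext h.1]
      have : 0 < r - s.card := by omega
      positivity
    obtain ⟨v, hv⟩ := card_pos.1 h1
    have hvs := notMem_of_mem_ext hv
    have h2 := h.2 ((insert_mem_rook_iff h.1 hvs).2 hv) (subset_insert v s)
    exact hvs (h2 (mem_insert_self v s))
  · rintro ⟨hs, hc⟩
    refine ⟨hs, fun t ht hst => ?_⟩
    have := card_le_of_mem_rook ht
    exact (eq_of_subset_of_card_le hst (by omega)).ge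

theorem rook_pseudomanifold (hr : 0 < r) : IsPseudomanifold (rook ι r) (r - 1) := by
  refine ⟨?_, ?_, ?_⟩
  · -- existence of a facet: the diagonal
    have hinj : Function.Injective (fun i : Fin r => ((fun _ => i : ι → Fin r), true)) := by
      intro i j h
      have := congrFun (congrArg Prod.fst h) (Classical.arbitrary ι)
      exact this
    refine ⟨univ.image (fun i : Fin r => ((fun _ => i : ι → Fin r), true)), ?_⟩
    rw [isFacet_rook_iff]
    refine ⟨⟨?_, ?_⟩, ?_⟩
    · have : Nonempty (Fin r) := ⟨⟨0, hr⟩⟩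
      simp
    · intro l u hu v hv h
      rw [coe_image, coe_univ, Set.image_univ, Set.mem_range] at hu hv
      obtain ⟨i, rfl⟩ := hu
      obtain ⟨j, rfl⟩ := hv
      have h' : i = j := h
      rw [h']
    · rw [card_image_of_injective _ hinj]; simp
  · intro s hs
    rw [isFacet_rook_iff] at hs
    omega
  · intro t ht hc
    have h1 : {s : Finset ((ι → Fin r) × Bool) | IsFacet (rook ι r) s ∧ t ⊆ s}
        = ((extVerts t).image (fun v => insert v t) : Finset _) := by
      ext s
      rw [mem_coe, ← above_eq ht, Set.mem_ofPred_eq, isFacet_rook_iff]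
      constructor
      · rintro ⟨⟨h1, h2⟩, h3⟩
        exact ⟨h1, by omega, h3⟩
      · rintro ⟨h1, h2, h3⟩
        exact ⟨⟨h1, by omega⟩, h3⟩
    rw [h1, Set.ncard_coe_finset, card_above ht, hc]
    have : r - (r - 1) = 1 := by omega
    rw [this]; simp

/-- The number of `(t)`-vertex faces. -/
theorem rook_recursion {t : ℕ} (ht : 1 ≤ t) :
    faceNum (rook ι r) (t - 1) * (2 * (r - t) ^ Fintype.card ι)
      ≤ faceNum (rook ι r) t * (t + 1) := by
  classical
  have key : ∀ i, faceNum (rook ι r) i =
      (univ.filter (fun s : Finset ((ι → Fin r) × Bool) =>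
        s ∈ (rook ι r).faces ∧ s.card = i + 1)).card := by
    intro i
    unfold faceNum
    rw [← Set.ncard_coe_finset]
    congr 1
    ext s
    simp
  rw [key, key]
  apply card_mul_le_card_mul (fun s t => s ⊆ t)
  · intro s hs
    rw [mem_filter] at hs
    obtain ⟨-, hs, hc⟩ := hs
    have hc' : s.card = t := by omega
    rw [← hc', ← card_above hs]
    apply card_le_card
    intro u hu
    rw [← above_eq hs] at hu
    rw [mem_bipartiteAbove, mem_filter]
    exact ⟨⟨mem_univ _, hu.1, hu.2.1⟩, hu.2.2⟩
  · intro s hs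
    rw [mem_filter] at hs
    obtain ⟨-, hs, hc⟩ := hs
    have : (powersetCard t s).card = t + 1 := by
      rw [card_powersetCard, hc]; simp
    rw [← this]
    apply card_le_card
    intro u hu
    rw [mem_bipartiteBelow, mem_filter] at hu
    rw [mem_powersetCard]
    exact ⟨hu.2, by omega⟩

theorem rook_vertices : faceNum (rook ι r) 0 = 2 * r ^ Fintype.card ι := by
  classical
  have h1 : {s : Finset ((ι → Fin r) × Bool) | s ∈ (rook ι r).faces ∧ s.card = 0 + 1}
      = ((univ : Finset ((ι → Fin r) × Bool)).image (fun v => ({v} : Finset _)) : Finset _) := by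
    ext s
    rw [mem_coe, mem_image, Set.mem_ofPred_eq]
    constructor
    · rintro ⟨-, hc⟩
      obtain ⟨v, rfl⟩ := card_eq_one.1 hc
      exact ⟨v, mem_univ _, rfl⟩
    · rintro ⟨v, -, rfl⟩
      exact ⟨(rook ι r).singleton_mem v, by simp⟩
  unfold faceNum
  rw [h1, Set.ncard_coe_finset, card_image_of_injective _ singleton_injective]
  simp [mul_comm]

end rook

/-! ### Counting the faces of `J m n` -/

/-- cyclic successor -/
def nxt {c : ℕ} (a : Fin c) : Fin c :=
  ⟨if a.val + 1 < c then a.val + 1 else 0, by split <;> omega⟩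

/-- codes for the empty set, the vertices and the edges of a cycle -/
def decode {c : ℕ} : Option (Fin c × Bool) → Finset (Fin c)
  | none => ∅
  | some (a, false) => {a}
  | some (a, true) => {a, nxt a}

/-- the number of vertices of the coded set -/
def size {c : ℕ} : Option (Fin c × Bool) → ℕ
  | none => 0
  | some (_, false) => 1
  | some (_, true) => 2

theorem nxt_of_sub {c : ℕ} {u v : Fin c} (h : (v - u).val = 1) : v = nxt u := by
  ext
  unfold nxt
  simp only
  rw [Fin.sub_def] at h
  simp only at h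
  have hu := u.isLt
  have hv := v.isLt
  by_cases huv : u.val ≤ v.val
  · have h1 : c - u.val + v.val = (v.val - u.val) + c := by omega
    rw [h1, Nat.add_mod_right, Nat.mod_eq_of_lt (by omega)] at h
    rw [if_pos (by omega)]
    omega
  · rw [Nat.mod_eq_of_lt (by omega)] at h
    rw [if_neg (by omega)]
    omega

theorem exists_code {c : ℕ} (s : Finset (Fin c))
    (hs : s.Nonempty → s ∈ (cycleComplex c).faces) : ∃ g, decode g = s ∧ size g = s.card := by
  classical
  rcases s.eq_empty_or_nonempty with rfl | hne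
  · exact ⟨none, rfl, rfl⟩
  · have h := hs hne
    have hc : s.card = 1 ∨ s.card = 2 := by
      have h1 := h.2.1
      have h2 := card_pos.2 hne
      omega
    rcases hc with hc | hc
    · obtain ⟨a, rfl⟩ := card_eq_one.1 hc
      exact ⟨some (a, false), rfl, by simp [size]⟩
    · obtain ⟨a, b, hab, rfl⟩ := card_eq_two.1 hc
      have hadj := h.2.2 a (by simp) b (by simp) hab
      rw [SimpleGraph.cycleGraph_adj'] at hadj
      rcases hadj with hadj | hadj
      · refine ⟨some (b, true), ?_, by rw [hc]; rfl⟩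
        rw [nxt_of_sub hadj]
        simp only [decode]
        exact pair_comm _ _
      · refine ⟨some (a, true), ?_, by rw [hc]; rfl⟩
        rw [nxt_of_sub hadj]
        simp only [decode]

open Polynomial in
theorem faceNum_join_le {m : ℕ} (c : Fin m → ℕ) (i : ℕ) :
    faceNum (join fun j => cycleComplex (c j)) i ≤
      (∏ j, (1 + C (c j) * X + C (c j) * X ^ 2 : ℕ[X])).coeff (i + 1) := by
  classical
  have hgf : ∀ j, (1 + C (c j) * X + C (c j) * X ^ 2 : ℕ[X]) =
      ∑ g : Option (Fin (c j) × Bool), (X : ℕ[X]) ^ size g := by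
    intro j
    rw [Fintype.sum_option, Fintype.sum_prod_type]
    simp only [Fintype.sum_bool, size, pow_zero, pow_one, sum_const, card_univ, Fintype.card_fin,
      nsmul_eq_mul]
    simp only [eq_natCast]
    ring
  have hcoeff : (∏ j, (1 + C (c j) * X + C (c j) * X ^ 2 : ℕ[X])).coeff (i + 1) =
      (univ.filter (fun g : ∀ j, Option (Fin (c j) × Bool) => ∑ j, size (g j) = i + 1)).card := by
    rw [prod_congr rfl (fun j _ => hgf j), prod_univ_sum, finsetSum_coeff]
    simp only [prod_pow_eq_pow_sum, coeff_X_pow, Fintype.piFinset_univ]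
    rw [card_filter]
    refine sum_congr rfl fun g _ => ?_
    simp only [eq_comm]
  rw [hcoeff]
  have hsub : {s : Finset (Σ j, Fin (c j)) |
      s ∈ (join fun j => cycleComplex (c j)).faces ∧ s.card = i + 1} ⊆
      (((univ.filter (fun g : ∀ j, Option (Fin (c j) × Bool) =>
        ∑ j, size (g j) = i + 1)).image (fun g => univ.sigma (fun j => decode (g j)))
        : Finset _) : Set _) := by
    rintro s ⟨hs, hcard⟩
    have hpart : ∀ j, ∃ g : Option (Fin (c j) × Bool),
        decode g = univ.filter (fun v => (⟨j, v⟩ : Σ j, Fin (c j)) ∈ s) ∧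
        size g = (univ.filter (fun v => (⟨j, v⟩ : Σ j, Fin (c j)) ∈ s)).card := by
      intro j
      apply exists_code
      intro hne
      exact hs.2 j _ hne (fun v hv => (mem_filter.1 hv).2)
    choose g hg1 hg2 using hpart
    have hs' : univ.sigma (fun j => decode (g j)) = s := by
      ext ⟨j, v⟩
      simp [hg1]
    rw [mem_coe, mem_image]
    refine ⟨g, ?_, hs'⟩
    rw [mem_filter]
    refine ⟨mem_univ _, ?_⟩
    rw [← hcard, ← hs', card_sigma]
    exact sum_congr rfl fun j _ => by rw [hg2, hg1]
  unfold faceNum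
  calc _ ≤ _ := Set.ncard_le_ncard hsub (Finset.finite_toSet _)
    _ ≤ _ := by
      rw [Set.ncard_coe_finset]
      exact card_image_le

/-! ### Comparison of the two face vectors -/

open Polynomial

theorem coeff_X_mul_derivative (p : ℤ[X]) (r : ℕ) :
    (X * derivative p).coeff r = (r : ℤ) * p.coeff r := by
  cases r with
  | zero => simp
  | succ r => rw [coeff_X_mul, coeff_derivative]; push_cast; ring

theorem coeff_X_sq_mul_derivative (p : ℤ[X]) (r : ℕ) :
    (X ^ 2 * derivative (derivative p)).coeff r = (r : ℤ) * (r - 1) * p.coeff r := by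
  match r with
  | 0 => simp
  | 1 => simp [pow_two, mul_assoc, coeff_X_mul]
  | r + 2 =>
    rw [pow_two, mul_assoc, coeff_X_mul, coeff_X_mul, coeff_derivative, coeff_derivative]
    push_cast
    ring

/-- the face polynomial of one cycle -/
noncomputable def qN (c : ℕ) : ℕ[X] := 1 + C c * X + C c * X ^ 2

/-- the same over the integers -/
noncomputable def qZ (c : ℤ) : ℤ[X] := 1 + C c * X + C c * X ^ 2

theorem qZ_pow_coeff (c k r : ℕ) : ((qZ c) ^ k).coeff r = (((qN c) ^ k).coeff r : ℕ) := by
  have h : qZ (c : ℤ) = (qN c).map (Nat.castRingHom ℤ) := by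
    simp [qZ, qN]
  rw [h, ← Polynomial.map_pow, coeff_map]
  rfl

theorem key_identity (k : ℕ) (m : ℤ) (hm : m = k + 2) :
    C (8 * m ^ 2) * qZ (8 * m) ^ (k + 2)
      + C (2 * (1 - 4 * m)) * (X * derivative (qZ (8 * m) ^ (k + 2)))
      + C 2 * (X ^ 2 * derivative (derivative (qZ (8 * m) ^ (k + 2))))
      - derivative (qZ (8 * m) ^ (k + 2))
      = C (64 * m ^ 2 * (m - 1) * (2 * m - 1)) * (X ^ 2 * qZ (8 * m) ^ k) := by
  have hC : ∀ a : ℤ, (C a : ℤ[X]) = (a : ℤ[X]) := fun a => by simp
  have hq1 : derivative (qZ (8 * m)) = C (8 * m) * (1 + 2 * X) := by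
    unfold qZ
    simp only [derivative_add, derivative_one, derivative_mul, derivative_C, derivative_X,
      derivative_X_pow]
    simp
    ring
  have hq2 : derivative (C (8 * m) * (1 + 2 * X) : ℤ[X]) = C (8 * m) * 2 := by
    simp
  have hp1 : derivative (qZ (8 * m) ^ (k + 2)) =
      C m * qZ (8 * m) ^ (k + 1) * (C (8 * m) * (1 + 2 * X)) := by
    rw [derivative_pow_succ, hq1, hm]
    simp only [hC]
    push_cast
    ring
  have hp2 : derivative (derivative (qZ (8 * m) ^ (k + 2))) =
      C m * (C (m - 1) * qZ (8 * m) ^ k * (C (8 * m) * (1 + 2 * X)) * (C (8 * m) * (1 + 2 * X))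
        + qZ (8 * m) ^ (k + 1) * (C (8 * m) * 2)) := by
    rw [hp1, mul_assoc, derivative_C_mul, derivative_mul, hq2, derivative_pow_succ, hq1, hm]
    simp only [hC]
    push_cast
    ring
  rw [hp2, hp1]
  simp only [hC]
  have hqe : qZ (8 * m) = 1 + (8 * m : ℤ[X]) * X + (8 * m : ℤ[X]) * X ^ 2 := by
    unfold qZ
    simp only [hC]
    push_cast
    ring
  rw [pow_succ (qZ (8 * m)) (k + 1), pow_succ (qZ (8 * m)) k]
  generalize hQ : qZ (8 * m) ^ k = Q
  rw [hqe]
  push_cast
  ring

theorem B_recursion (k r : ℕ) :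
    (2 * (2 * ((k : ℤ) + 2) - r) ^ 2) * ((qN (8 * (k + 2))) ^ (k + 2)).coeff r =
      (r + 1) * ((qN (8 * (k + 2))) ^ (k + 2)).coeff (r + 1) +
      64 * ((k : ℤ) + 2) ^ 2 * (k + 1) * (2 * k + 3) *
        (if 2 ≤ r then (((qN (8 * (k + 2))) ^ k).coeff (r - 2) : ℤ) else 0) := by
  have h := congrArg (fun p => p.coeff r) (key_identity k ((k : ℤ) + 2) rfl)
  simp only [coeff_sub, coeff_add, coeff_C_mul, coeff_X_mul_derivative,
    coeff_X_sq_mul_derivative] at h
  rw [coeff_derivative, coeff_X_pow_mul'] at h
  have hc : (8 * ((k : ℤ) + 2)) = ((8 * (k + 2) : ℕ) : ℤ) := by push_cast; ring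
  rw [hc, qZ_pow_coeff, qZ_pow_coeff, qZ_pow_coeff] at h
  linear_combination h

/-- the comparison for all `t`-vertex faces -/
theorem compare (k : ℕ) (A : ℕ → ℕ) (hA1 : A 1 = 8 * (k + 2) ^ 2)
    (hA : ∀ t, 1 ≤ t → A t * (2 * (2 * (k + 2) - t) ^ 2) ≤ A (t + 1) * (t + 1)) :
    ∀ t, 1 ≤ t → t ≤ 2 * (k + 2) →
      ((qN (8 * (k + 2))) ^ (k + 2)).coeff t ≤ A t ∧
      (3 ≤ t → ((qN (8 * (k + 2))) ^ (k + 2)).coeff t < A t) := by
  have h0 : ((qN (8 * (k + 2))) ^ (k + 2)).coeff 0 = 1 := by
    rw [coeff_zero_eq_eval_zero]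
    simp [qN]
  intro t ht
  induction t, ht using Nat.le_induction with
  | base =>
    intro _
    refine ⟨?_, fun h => by omega⟩
    have h := B_recursion k 0
    rw [h0] at h
    simp only [if_neg (show ¬ (2 ≤ 0) by omega)] at h
    push_cast at h
    zify
    rw [hA1]
    push_cast
    linarith
  | succ t ht ih =>
    intro htm
    obtain ⟨ih1, ih2⟩ := ih (by omega)
    have h := B_recursion k t
    have hAt := hA t ht
    zify at hAt ih1 ih2
    rw [Nat.cast_sub (by omega)] at hAt
    push_cast at hAt
    set B := ((qN (8 * (k + 2))) ^ (k + 2)).coeff t with hB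
    set B' := ((qN (8 * (k + 2))) ^ (k + 2)).coeff (t + 1) with hB'
    have hpos : (0 : ℤ) < 2 * (2 * ((k : ℤ) + 2) - t) ^ 2 := by
      have h1 : (0 : ℤ) < 2 * ((k : ℤ) + 2) - t := by
        have : (t : ℤ) + 1 ≤ 2 * ((k : ℤ) + 2) := by exact_mod_cast htm
        linarith
      positivity
    have hextra : (0 : ℤ) ≤ 64 * ((k : ℤ) + 2) ^ 2 * (k + 1) * (2 * k + 3) *
        (if 2 ≤ t then (((qN (8 * (k + 2))) ^ k).coeff (t - 2) : ℤ) else 0) := by
      split_ifs <;> positivity
    have hle : ((t : ℤ) + 1) * B' ≤ A (t + 1) * (t + 1) := by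
      have := mul_le_mul_of_nonneg_left ih1 hpos.le
      nlinarith
    have htp : (0 : ℤ) < (t : ℤ) + 1 := by positivity
    refine ⟨?_, fun h3 => ?_⟩
    · zify
      by_contra hcon
      push Not at hcon
      nlinarith
    · zify
      by_contra hcon
      push Not at hcon
      rcases eq_or_lt_of_le (show 2 ≤ t by omega) with h2 | h2
      · subst h2
        have h00 : ((qN (8 * (k + 2))) ^ k).coeff 0 = 1 := by
          rw [coeff_zero_eq_eval_zero]
          simp [qN]
        have hex : (0 : ℤ) < 64 * ((k : ℤ) + 2) ^ 2 * (k + 1) * (2 * k + 3) *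
            (if 2 ≤ 2 then (((qN (8 * (k + 2))) ^ k).coeff (2 - 2) : ℤ) else 0) := by
          rw [if_pos le_rfl, show 2 - 2 = 0 from rfl, h00]
          positivity
        have := mul_le_mul_of_nonneg_left ih1 hpos.le
        nlinarith
      · have hlt := ih2 (by omega)
        have := mul_lt_mul_of_pos_left hlt hpos
        nlinarith

/-- **Result.** For every `m ≥ 2` there is a flag `(2m-1)`-dimensional pseudomanifold `K` with
`n = 8m²` vertices such that `f_i(K) > f_i(J_m(n))` for every `i` with `2 ≤ i ≤ 2m-1`. -/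
theorem result (m : ℕ) (hm : 2 ≤ m) :
    ∃ (V : Type) (_ : Fintype V) (K : AbstractSimplicialComplex V),
      Fintype.card V = 8 * m ^ 2 ∧ IsFlag K ∧ IsPseudomanifold K (2 * m - 1) ∧
      ∀ i : ℕ, 2 ≤ i → i ≤ 2 * m - 1 →
        faceNum (J m (8 * m ^ 2)) i < faceNum K i := by
  obtain ⟨k, rfl⟩ : ∃ k, m = k + 2 := ⟨m - 2, by omega⟩
  refine ⟨(Fin 2 → Fin (2 * (k + 2))) × Bool, inferInstance, rook (Fin 2) (2 * (k + 2)),
    ?_, rook_flag, rook_pseudomanifold (by omega), ?_⟩
  · simp
    ring
  · intro i hi1 hi2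
    have hc : ∀ j : Fin (k + 2), (8 * (k + 2) ^ 2 / (k + 2) +
        if (j : ℕ) < 8 * (k + 2) ^ 2 % (k + 2) then 1 else 0) = 8 * (k + 2) := by
      intro j
      have h1 : 8 * (k + 2) ^ 2 = (8 * (k + 2)) * (k + 2) := by ring
      rw [h1, Nat.mul_div_cancel _ (by omega), Nat.mul_mod_left]
      simp
    have hJ : faceNum (J (k + 2) (8 * (k + 2) ^ 2)) i ≤
        ((qN (8 * (k + 2))) ^ (k + 2)).coeff (i + 1) := by
      refine (faceNum_join_le _ i).trans (le_of_eq ?_)
      rw [prod_congr rfl (fun j _ => by rw [hc j])]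
      rw [prod_const, card_univ, Fintype.card_fin]
      rfl
    refine lt_of_le_of_lt hJ ?_
    have := compare k (fun t => faceNum (rook (Fin 2) (2 * (k + 2))) (t - 1)) ?_ ?_ (i + 1)
      (by omega) (by omega)
    · exact this.2 (by omega)
    · simp only [Nat.sub_self]
      rw [rook_vertices]
      simp
      ring
    · intro t ht
      have := rook_recursion (ι := Fin 2) (r := 2 * (k + 2)) ht
      rw [Fintype.card_fin] at this
      exact this

end Pool.Agent.Results.MP_383f58_co.Chessboard
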