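import Mathlib
import Pool.Agent.Results.MP_383f58_co.Chessboard

set_option autoImplicit false

namespace Pool.Agent.Results.MP_383f58_co.LargeN

open Finset Pool.Agent.Results.MP_383f58_co.Chessboard

/-- number of faces with `t` vertices of the blown-up product of chessboards -/
theorem rook_count (d r : ℕ) [Nonempty (Fin d)] : ∀ t, 1 ≤ t → t ≤ r →
    2 ^ t * (r.descFactorial t) ^ d ≤ faceNum (rook (Fin d) r) (t - 1) * t.factorial := by
  intro t ht
  induction t, ht using Nat.le_induction with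
  | base =>
    intro _
    simp only [Nat.sub_self]
    rw [rook_vertices]
    simp
  | succ t ht ih =>
    intro htr
    have h1 := ih (by omega)
    have h2 := rook_recursion (ι := Fin d) (r := r) ht
    rw [Fintype.card_fin] at h2
    rw [Nat.add_sub_cancel, Nat.factorial_succ, Nat.descFactorial_succ, mul_pow, pow_succ]
    calc 2 ^ t * 2 * ((r - t) ^ d * r.descFactorial t ^ d)
        = (2 ^ t * r.descFactorial t ^ d) * (2 * (r - t) ^ d) := by ring
      _ ≤ (faceNum (rook (Fin d) r) (t - 1) * t.factorial) * (2 * (r - t) ^ d) :=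
          Nat.mul_le_mul_right _ h1
      _ = (faceNum (rook (Fin d) r) (t - 1) * (2 * (r - t) ^ d)) * t.factorial := by ring
      _ ≤ (faceNum (rook (Fin d) r) t * (t + 1)) * t.factorial := Nat.mul_le_mul_right _ h2
      _ = faceNum (rook (Fin d) r) t * ((t + 1) * t.factorial) := by ring

open Polynomial in
theorem coeff_top (c m : ℕ) : ((1 + C c * X + C c * X ^ 2 : ℕ[X]) ^ m).coeff (2 * m) = c ^ m := by
  have hd : (1 + C c * X + C c * X ^ 2 : ℕ[X]).natDegree ≤ 2 := by
    compute_degree
  rw [mul_comm 2 m, coeff_pow_of_natDegree_le hd]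
  congr 1
  rw [coeff_add, coeff_add, coeff_one, coeff_C_mul, coeff_C_mul, coeff_X, coeff_X_pow]
  simp

/-- `(2m)^m < (2m)!` -/
theorem pow_lt_factorial (m : ℕ) (hm : 2 ≤ m) : (2 * m) ^ m < (2 * m).factorial := by
  obtain ⟨k, rfl⟩ : ∃ k, m = k + 2 := ⟨m - 2, by omega⟩
  have := compare k (fun t => 2 ^ t * (2 * (k + 2)).choose t * (2 * (k + 2)).descFactorial t)
    (by simp; ring) (by
      intro t ht
      have h1 := Nat.choose_succ_right_eq (2 * (k + 2)) t
      rw [Nat.descFactorial_succ, pow_succ]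
      apply le_of_eq
      calc 2 ^ t * (2 * (k + 2)).choose t * (2 * (k + 2)).descFactorial t *
            (2 * (2 * (k + 2) - t) ^ 2)
          = 2 ^ t * 2 * ((2 * (k + 2)).choose t * (2 * (k + 2) - t)) *
            ((2 * (k + 2) - t) * (2 * (k + 2)).descFactorial t) := by ring
        _ = _ := by rw [← h1]; ring) (2 * (k + 2)) (by omega) le_rfl
  have h2 := this.2 (by omega)
  rw [qN, coeff_top] at h2
  simp only [Nat.choose_self, Nat.descFactorial_self, mul_one] at h2
  rw [show 8 * (k + 2) = 4 * (2 * (k + 2)) by ring, mul_pow, pow_mul,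
    show (2 ^ 2 : ℕ) = 4 by norm_num] at h2
  exact lt_of_mul_lt_mul_left h2 (Nat.zero_le _)

theorem bernoulli (a k : ℕ) : (a + k) * a ^ k ≤ (a + 1) ^ k * a := by
  induction k with
  | zero => simp
  | succ k ih =>
    calc (a + (k + 1)) * a ^ (k + 1) = a * ((a + k) * a ^ k) + a * a ^ k := by ring
      _ ≤ a * ((a + k) * a ^ k) + (a + k) * a ^ k := by
          apply Nat.add_le_add_left
          exact Nat.mul_le_mul_right _ (by omega)
      _ = (a + 1) * ((a + k) * a ^ k) := by ring
      _ ≤ (a + 1) * ((a + 1) ^ k * a) := Nat.mul_le_mul_left _ ih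
      _ = (a + 1) ^ (k + 1) * a := by ring

/-- **Result.** For every `m ≥ 2`, every constant `C` and every `N`, there is a flag
`(2m-1)`-dimensional pseudomanifold with `n ≥ N` vertices and more than `C · f_{2m-1}(J_m(n))`
facets. -/
theorem result (m : ℕ) (hm : 2 ≤ m) (C N : ℕ) :
    ∃ (n : ℕ) (V : Type) (_ : Fintype V) (K : AbstractSimplicialComplex V),
      N ≤ n ∧ Fintype.card V = n ∧ IsFlag K ∧ IsPseudomanifold K (2 * m - 1) ∧
      C * faceNum (J m n) (2 * m - 1) < faceNum K (2 * m - 1) := by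
  -- exponent
  set a : ℕ := (2 * m) ^ m with ha
  set k : ℕ := C * a + N + 1 with hk
  have ha0 : 0 < a := by positivity
  refine ⟨2 * (2 * m) ^ (k + 1), (Fin (k + 1) → Fin (2 * m)) × Bool, inferInstance,
    rook (Fin (k + 1)) (2 * m), ?_, ?_, rook_flag, rook_pseudomanifold (by omega), ?_⟩
  · have h1 : k + 1 < 2 ^ (k + 1) := Nat.lt_two_pow_self
    have h2 : 2 ^ (k + 1) ≤ (2 * m) ^ (k + 1) := Nat.pow_le_pow_left (by omega) _
    omega
  · simp
    ring
  · have hc : ∀ j : Fin m, (2 * (2 * m) ^ (k + 1) / m +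
        if (j : ℕ) < 2 * (2 * m) ^ (k + 1) % m then 1 else 0) = 4 * (2 * m) ^ k := by
      intro j
      have h1 : 2 * (2 * m) ^ (k + 1) = (4 * (2 * m) ^ k) * m := by ring
      rw [h1, Nat.mul_div_cancel _ (by omega), Nat.mul_mod_left]
      simp
    have hJ : faceNum (J m (2 * (2 * m) ^ (k + 1))) (2 * m - 1) ≤ 4 ^ m * a ^ k := by
      refine (faceNum_join_le _ _).trans (le_of_eq ?_)
      rw [prod_congr rfl (fun j _ => by rw [hc j])]
      rw [prod_const, card_univ, Fintype.card_fin, show 2 * m - 1 + 1 = 2 * m by omega,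
        coeff_top, mul_pow, ha, ← pow_mul, ← pow_mul, mul_comm m k]
    have hK := rook_count (k + 1) (2 * m) (2 * m) (by omega) le_rfl
    rw [Nat.descFactorial_self, pow_succ, pow_mul, show (2 ^ 2 : ℕ) = 4 by norm_num,
      ← mul_assoc] at hK
    have hK' := Nat.le_of_mul_le_mul_right hK (Nat.factorial_pos _)
    have hfac : a + 1 ≤ (2 * m).factorial := pow_lt_factorial m hm
    have hpow : (a + 1) ^ k ≤ (2 * m).factorial ^ k := Nat.pow_le_pow_left hfac k
    have hb := bernoulli a k
    have hlt : C * a ^ k < (a + 1) ^ k := by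
      have h1 : C * a ^ k * a < (a + 1) ^ k * a := by
        refine lt_of_lt_of_le ?_ hb
        have h2 : C * a < a + k := by omega
        calc C * a ^ k * a = (C * a) * a ^ k := by ring
          _ < (a + k) * a ^ k := by
            apply Nat.mul_lt_mul_of_pos_right h2
            positivity
      exact lt_of_mul_lt_mul_right h1 (Nat.zero_le _)
    calc C * faceNum (J m (2 * (2 * m) ^ (k + 1))) (2 * m - 1) ≤ C * (4 ^ m * a ^ k) :=
          Nat.mul_le_mul_left _ hJ
      _ = 4 ^ m * (C * a ^ k) := by ring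
      _ < 4 ^ m * (a + 1) ^ k := by
          apply Nat.mul_lt_mul_of_pos_left hlt
          positivity
      _ ≤ 4 ^ m * (2 * m).factorial ^ k := Nat.mul_le_mul_left _ hpow
      _ ≤ _ := hK'

end Pool.Agent.Results.MP_383f58_co.LargeN
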